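import Mathlib

set_option autoImplicit false

/-!
# Weighted constants on the real line

Cubes of the real line are the intervals `[a, b]` with `a < b`. Weights take values in `[0, ∞]`.
-/

namespace Pool.Agent.H572Z.Mx

open MeasureTheory Set
open scoped ENNReal

/-- The average of `v` over the interval `[a, b]`. -/
noncomputable def avg (v : ℝ → ℝ≥0∞) (a b : ℝ) : ℝ≥0∞ :=
  (∫⁻ x in Icc a b, v x) / ENNReal.ofReal (b - a)

/-- The (uncentred) Hardy-Littlewood maximal function of a nonnegative function `g`. -/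
noncomputable def maxFn (g : ℝ → ℝ≥0∞) (x : ℝ) : ℝ≥0∞ :=
  ⨆ (a : ℝ) (b : ℝ) (_ : a < b) (_ : x ∈ Icc a b), avg g a b

/-- `A_q(v, Q) = ⟨v⟩_Q ⟨v^(-1/(q-1))⟩_Q^(q-1)` for `Q = [a, b]`. -/
noncomputable def Aq (q : ℝ) (v : ℝ → ℝ≥0∞) (a b : ℝ) : ℝ≥0∞ :=
  avg v a b * (avg (fun x => v x ^ (-1 / (q - 1))) a b) ^ (q - 1)

/-- `A_∞(v, Q) = v(Q)⁻¹ ∫_Q M(v χ_Q)` for `Q = [a, b]`. -/
noncomputable def Ainf (v : ℝ → ℝ≥0∞) (a b : ℝ) : ℝ≥0∞ :=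
  (∫⁻ x in Icc a b, maxFn ((Icc a b).indicator v) x) / ∫⁻ x in Icc a b, v x

/-- The Muckenhoupt constant `[v]_{A_q}`. -/
noncomputable def AqConst (q : ℝ) (v : ℝ → ℝ≥0∞) : ℝ≥0∞ :=
  ⨆ (a : ℝ) (b : ℝ) (_ : a < b), Aq q v a b

/-- The one-supremum mixed constant `sup_Q A_q(v, Q)^α A_∞(v, Q)^β`. -/
noncomputable def mixedConst (q α β : ℝ) (v : ℝ → ℝ≥0∞) : ℝ≥0∞ :=
  ⨆ (a : ℝ) (b : ℝ) (_ : a < b), Aq q v a b ^ α * Ainf v a b ^ β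

/-- The norm of a nonnegative function `g` in `L^p(w)`. -/
noncomputable def wNorm (p : ℝ) (w g : ℝ → ℝ≥0∞) : ℝ≥0∞ :=
  (∫⁻ x, g x ^ p * w x) ^ (1 / p)

/-- The norm of the maximal operator on `L^p(w)`: the supremum of `‖M f‖` over all measurable
real functions `f` with `‖f‖ = 1`. -/
noncomputable def maxOpNorm (p : ℝ) (w : ℝ → ℝ≥0∞) : ℝ≥0∞ :=
  ⨆ (f : ℝ → ℝ) (_ : Measurable f) (_ : wNorm p w (fun x => ‖f x‖ₑ) = 1),
    wNorm p w (maxFn (fun x => ‖f x‖ₑ))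

end Pool.Agent.H572Z.Mx
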