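import Mathlib
import Pool.Agent.H572Z.Mx.Defs

set_option autoImplicit false

namespace Pool.Agent.H572Z.Mx

open MeasureTheory Set
open scoped ENNReal

/-- The truncated distance function. -/
noncomputable def mm (T x : ℝ) : ℝ := min (1 + |x|) T

variable {T : ℝ}

lemma one_le_mm (hT : 1 ≤ T) (x : ℝ) : 1 ≤ mm T x :=
  le_min (by linarith [abs_nonneg x]) hT

lemma mm_pos (hT : 1 ≤ T) (x : ℝ) : 0 < mm T x := lt_of_lt_of_le one_pos (one_le_mm hT x)

lemma mm_le (x : ℝ) : mm T x ≤ T := min_le_right _ _

lemma mm_mono {x y : ℝ} (h : |x| ≤ |y|) : mm T x ≤ mm T y :=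
  min_le_min (by linarith) le_rfl

lemma mm_half (hT : 1 ≤ T) {x y : ℝ} (h : |x| ≤ 2 * |y|) : mm T x ≤ 2 * mm T y := by
  unfold mm
  rcases le_total (1 + |y|) T with h1 | h1
  · rw [min_eq_left h1]
    exact (min_le_left _ _).trans (by linarith)
  · rw [min_eq_right h1]
    exact (min_le_right _ _).trans (by linarith)

lemma continuous_mm : Continuous (mm T) := by
  unfold mm
  fun_prop

lemma avg_le_of_le {v : ℝ → ℝ≥0∞} {a b : ℝ} (hab : a < b) {c : ℝ≥0∞}
    (h : ∀ y ∈ Icc a b, v y ≤ c) : avg v a b ≤ c := by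
  unfold avg
  have hpos : ENNReal.ofReal (b - a) ≠ 0 := by
    rw [Ne, ENNReal.ofReal_eq_zero, not_le]; linarith
  rw [ENNReal.div_le_iff hpos ENNReal.ofReal_ne_top]
  calc ∫⁻ x in Icc a b, v x ≤ ∫⁻ _ in Icc a b, c :=
        setLIntegral_mono' measurableSet_Icc h
    _ = c * ENNReal.ofReal (b - a) := by
        rw [setLIntegral_const, Real.volume_Icc]

lemma avg_mono {v v' : ℝ → ℝ≥0∞} (h : ∀ y, v y ≤ v' y) (a b : ℝ) : avg v a b ≤ avg v' a b :=
  ENNReal.div_le_div_right (lintegral_mono h) _

lemma lintegral_inv_one_add {S : ℝ} (hS : 0 ≤ S) :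
    ∫⁻ x in Icc 0 S, ENNReal.ofReal (1 / (1 + x)) = ENNReal.ofReal (Real.log (1 + S)) := by
  have hcont : ContinuousOn (fun x : ℝ => 1 / (1 + x)) (Icc 0 S) := by
    refine continuousOn_const.div (by fun_prop) (fun x hx => ?_)
    have := hx.1
    linarith
  rw [← ofReal_integral_eq_lintegral_ofReal hcont.integrableOn_Icc]
  · congr 1
    rw [integral_Icc_eq_integral_Ioc, ← intervalIntegral.integral_of_le hS]
    have h := intervalIntegral.integral_eq_sub_of_hasDerivAt (f := fun x : ℝ => Real.log (1 + x))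
      (f' := fun x : ℝ => 1 / (1 + x)) (a := 0) (b := S) (fun x hx => by
        rw [uIcc_of_le hS] at hx
        have h1 : (1 + x) ≠ 0 := by have := hx.1; linarith
        have := ((hasDerivAt_id x).const_add 1).log h1
        simpa using this) (by
        rw [intervalIntegrable_iff_integrableOn_Icc_of_le hS]
        exact hcont.integrableOn_Icc)
    rw [h]
    simp
  · refine (ae_restrict_iff' measurableSet_Icc).2 (Filter.Eventually.of_forall fun x hx => ?_)
    have := hx.1
    positivity

lemma lintegral_inv_mm_half (hT : 1 ≤ T) {R : ℝ} (hR : 0 ≤ R) :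
    ∫⁻ x in Icc 0 R, ENNReal.ofReal (1 / mm T x) ≤
      ENNReal.ofReal (Real.log (mm T R) + R / T) := by
  set S := min R (T - 1) with hS
  have hS0 : 0 ≤ S := le_min hR (by linarith)
  have hT0 : 0 < T := by linarith
  have hmS : mm T R = 1 + S := by
    unfold mm
    rw [abs_of_nonneg hR, hS]
    rcases le_total R (T - 1) with h | h
    · rw [min_eq_left h, min_eq_left (by linarith)]
    · rw [min_eq_right h, min_eq_right (by linarith)]; ring
  calc ∫⁻ x in Icc 0 R, ENNReal.ofReal (1 / mm T x)
      ≤ ∫⁻ x in Icc 0 R, ((Icc 0 S).indicator (fun x => ENNReal.ofReal (1 / (1 + x))) x +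
          ENNReal.ofReal (1 / T)) := by
        refine setLIntegral_mono' measurableSet_Icc fun x hx => ?_
        rcases le_total (1 + x) T with h | h
        · have hx' : x ∈ Icc 0 S := ⟨hx.1, le_min hx.2 (by linarith)⟩
          rw [indicator_of_mem hx']
          have : mm T x = 1 + x := by
            unfold mm
            rw [abs_of_nonneg hx.1, min_eq_left h]
          rw [this]
          exact le_self_add
        · have : mm T x = T := by
            unfold mm
            rw [abs_of_nonneg hx.1, min_eq_right h]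
          rw [this]
          exact le_add_self
    _ = (∫⁻ x in Icc 0 R, (Icc 0 S).indicator (fun x => ENNReal.ofReal (1 / (1 + x))) x) +
          ENNReal.ofReal (1 / T) * ENNReal.ofReal R := by
        rw [lintegral_add_right _ measurable_const, setLIntegral_const, Real.volume_Icc, sub_zero]
    _ ≤ ENNReal.ofReal (Real.log (1 + S)) + ENNReal.ofReal (1 / T) * ENNReal.ofReal R := by
        gcongr
        rw [← lintegral_inv_one_add hS0, ← lintegral_indicator (s := Icc 0 S) measurableSet_Icc]
        exact setLIntegral_le_lintegral _ _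
    _ = ENNReal.ofReal (Real.log (mm T R) + R / T) := by
        rw [← ENNReal.ofReal_mul (by positivity), ← ENNReal.ofReal_add
          (Real.log_nonneg (by linarith)) (by positivity), hmS]
        congr 1
        ring

lemma lintegral_inv_mm (hT : 1 ≤ T) {R : ℝ} (hR : 0 ≤ R) :
    ∫⁻ x in Icc (-R) R, ENNReal.ofReal (1 / mm T x) ≤
      ENNReal.ofReal (2 * (Real.log (mm T R) + R / T)) := by
  have h1 := lintegral_inv_mm_half hT hR
  have h2 : ∫⁻ x in Icc (-R) 0, ENNReal.ofReal (1 / mm T x) =
      ∫⁻ x in Icc 0 R, ENNReal.ofReal (1 / mm T x) := by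
    rw [← lintegral_indicator measurableSet_Icc, ← lintegral_indicator measurableSet_Icc,
      ← lintegral_neg_eq_self]
    congr 1
    ext x
    by_cases hx : x ∈ Icc 0 R
    · have hx' : -x ∈ Icc (-R) 0 := ⟨by linarith [hx.2], by linarith [hx.1]⟩
      rw [indicator_of_mem hx, indicator_of_mem hx']
      simp [mm]
    · have hx' : -x ∉ Icc (-R) 0 := fun h => hx ⟨by linarith [h.2], by linarith [h.1]⟩
      rw [indicator_of_notMem hx, indicator_of_notMem hx']
  have hT0 : 0 < T := by linarith
  have hnn : 0 ≤ Real.log (mm T R) + R / T :=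
    add_nonneg (Real.log_nonneg (one_le_mm hT R)) (by positivity)
  calc ∫⁻ x in Icc (-R) R, ENNReal.ofReal (1 / mm T x)
      ≤ ∫⁻ x in Icc (-R) 0 ∪ Icc 0 R, ENNReal.ofReal (1 / mm T x) := by
        refine lintegral_mono_set fun x hx => ?_
        rcases le_total x 0 with h | h
        · exact Or.inl ⟨hx.1, h⟩
        · exact Or.inr ⟨h, hx.2⟩
    _ ≤ (∫⁻ x in Icc (-R) 0, ENNReal.ofReal (1 / mm T x)) +
          ∫⁻ x in Icc 0 R, ENNReal.ofReal (1 / mm T x) := lintegral_union_le _ _ _
    _ ≤ ENNReal.ofReal (Real.log (mm T R) + R / T) +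
          ENNReal.ofReal (Real.log (mm T R) + R / T) := by
        rw [h2]; exact add_le_add h1 h1
    _ = _ := by
        rw [← ENNReal.ofReal_add hnn hnn]; congr 1; ring

/-- The averaging lemma. -/
lemma avg_le_key (hT : 1 ≤ T) {h : ℝ → ℝ≥0∞} {c A B : ℝ} (hc : 0 ≤ c) (hA : 0 ≤ A) (hB : 0 ≤ B)
    (hh : ∀ y, h y ≤ ENNReal.ofReal (c / mm T y)) {a b R : ℝ} (hab : a < b)
    (hR : R = max |a| |b|)
    (hint : ∫⁻ x in Icc (-R) R, h x ≤ ENNReal.ofReal (A + B * (R / T))) :
    avg h a b ≤ ENNReal.ofReal ((2 * c + 4 * A + 2 * B) / mm T R) := by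
  have hT0 : 0 < T := by linarith
  have hRa : |a| ≤ R := hR ▸ le_max_left _ _
  have hRb : |b| ≤ R := hR ▸ le_max_right _ _
  have hR0 : 0 ≤ R := (abs_nonneg a).trans hRa
  have hm := mm_pos hT R
  have hsimple : (∀ y ∈ Icc a b, mm T R ≤ 2 * mm T y) →
      avg h a b ≤ ENNReal.ofReal ((2 * c + 4 * A + 2 * B) / mm T R) := by
    intro hy
    refine avg_le_of_le hab fun y hyab => (hh y).trans (ENNReal.ofReal_le_ofReal ?_)
    have h1 := mm_pos hT y
    rw [div_le_div_iff₀ h1 hm]
    have := hy y hyab
    nlinarith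
  by_cases hR1 : R ≤ 1
  · refine hsimple fun y _ => ?_
    have h1 := one_le_mm hT y
    have h2 : mm T R ≤ 1 + |R| := min_le_left _ _
    rw [abs_of_nonneg hR0] at h2
    linarith
  · push Not at hR1
    by_cases hlen : b - a < R / 2
    · refine hsimple fun y hy => mm_half hT ?_
      rw [abs_of_nonneg hR0]
      have h1 : |a| ≤ |y| + (b - a) := by
        have := abs_sub_abs_le_abs_sub a y
        rw [abs_sub_comm, abs_of_nonneg (a := y - a) (by linarith [hy.1])] at this
        linarith [hy.2]
      have h2 : |b| ≤ |y| + (b - a) := by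
        have := abs_sub_abs_le_abs_sub b y
        rw [abs_of_nonneg (a := b - y) (by linarith [hy.2])] at this
        linarith [hy.1]
      have h3 : R ≤ |y| + (b - a) := hR ▸ max_le h1 h2
      linarith
    · push Not at hlen
      have hba : 0 < b - a := by linarith
      unfold avg
      have hpos : ENNReal.ofReal (b - a) ≠ 0 := by
        rw [Ne, ENNReal.ofReal_eq_zero, not_le]; linarith
      rw [ENNReal.div_le_iff hpos ENNReal.ofReal_ne_top, ← ENNReal.ofReal_mul (by positivity)]
      refine le_trans (lintegral_mono_set (fun x hx => ?_)) (hint.trans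
        (ENNReal.ofReal_le_ofReal ?_))
      · exact ⟨by linarith [hx.1, neg_abs_le a], by linarith [hx.2, le_abs_self b]⟩
      · have h1 : mm T R ≤ 2 * R := by
          have h2 : mm T R ≤ 1 + |R| := min_le_left _ _
          rw [abs_of_nonneg hR0] at h2
          linarith
        have h2 : mm T R ≤ T := mm_le R
        have h3 : mm T R * (R / T) ≤ R := by
          rw [← mul_div_assoc, div_le_iff₀ hT0]
          nlinarith
        rw [div_mul_eq_mul_div, le_div_iff₀ hm]
        have h4 : A * mm T R ≤ A * (2 * R) := mul_le_mul_of_nonneg_left h1 hA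
        have h5 : B * (mm T R * (R / T)) ≤ B * R := mul_le_mul_of_nonneg_left h3 hB
        have h6 : (2 * c + 4 * A + 2 * B) * (R / 2) ≤ (2 * c + 4 * A + 2 * B) * (b - a) :=
          mul_le_mul_of_nonneg_left hlen (by positivity)
        nlinarith

lemma div_one_add_log_mono {s t : ℝ} (hs : 1 ≤ s) (hst : s ≤ t) :
    s / (1 + Real.log s) ≤ t / (1 + Real.log t) := by
  have hs0 : 0 < s := by linarith
  have ht0 : 0 < t := by linarith
  have hls : 0 ≤ Real.log s := Real.log_nonneg hs
  have hlt : 0 ≤ Real.log t := Real.log_nonneg (hs.trans hst)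
  rw [div_le_div_iff₀ (by linarith) (by linarith)]
  have h1 : Real.log t - Real.log s ≤ t / s - 1 := by
    rw [← Real.log_div ht0.ne' hs0.ne']
    exact Real.log_le_sub_one_of_pos (by positivity)
  have h2 : s * (Real.log t - Real.log s) ≤ t - s := by
    have := mul_le_mul_of_nonneg_left h1 hs0.le
    rwa [mul_sub s (t / s), mul_div_cancel₀ _ hs0.ne', mul_one] at this
  nlinarith

end Pool.Agent.H572Z.Mx
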