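import Mathlib
import Pool.Agent.H572Z.Mx.Lem

set_option autoImplicit false

namespace Pool.Agent.H572Z.Mx

open MeasureTheory Set
open scoped ENNReal

/-- The profile of the weight. -/
noncomputable def UU (p N t : ℝ) : ℝ := (1 + N) ^ p * t ^ (p - 1) / (1 + Real.log t)

/-- The weight, as a real function. -/
noncomputable def WW (p N x : ℝ) : ℝ := if |x| ≤ 1 then 1 else UU p N (mm (Real.exp N) x)

/-- The weight. -/
noncomputable def ww (p N x : ℝ) : ℝ≥0∞ := ENNReal.ofReal (WW p N x)

variable {p N : ℝ}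

lemma hT (hN : 1 ≤ N) : 1 ≤ Real.exp N := Real.one_le_exp (by linarith)

lemma UU_eq (hN : 1 ≤ N) {t : ℝ} (ht : 1 ≤ t) :
    UU p N t = (1 + N) ^ p * (t ^ (p - 2) * (t / (1 + Real.log t))) := by
  unfold UU
  have : t ^ (p - 1) = t ^ (p - 2) * t := by
    rw [show p - 1 = (p - 2) + 1 by ring, Real.rpow_add (by linarith), Real.rpow_one]
  rw [this]
  ring

lemma UU_mono (hp : 2 ≤ p) (hN : 1 ≤ N) {s t : ℝ} (hs : 1 ≤ s) (hst : s ≤ t) :
    UU p N s ≤ UU p N t := by
  rw [UU_eq hN hs, UU_eq hN (hs.trans hst)]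
  have hls : 0 ≤ Real.log s := Real.log_nonneg hs
  refine mul_le_mul_of_nonneg_left (mul_le_mul
    (Real.rpow_le_rpow (by linarith) hst (by linarith)) (div_one_add_log_mono hs hst)
    (by positivity) (Real.rpow_nonneg (by linarith) _)) (Real.rpow_nonneg (by linarith) _)

lemma one_le_UU (hp : 2 ≤ p) (hN : 1 ≤ N) {t : ℝ} (ht : 1 ≤ t) : 1 ≤ UU p N t := by
  refine le_trans ?_ (UU_mono hp hN le_rfl ht)
  unfold UU
  simp only [Real.one_rpow, Real.log_one, add_zero, mul_one, div_one]
  exact Real.one_le_rpow (by linarith) (by linarith)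

lemma one_le_WW (hp : 2 ≤ p) (hN : 1 ≤ N) (x : ℝ) : 1 ≤ WW p N x := by
  unfold WW
  split_ifs
  · exact le_rfl
  · exact one_le_UU hp hN (one_le_mm (hT hN) x)

lemma WW_le (hp : 2 ≤ p) (hN : 1 ≤ N) {x R : ℝ} (h : |x| ≤ |R|) :
    WW p N x ≤ UU p N (mm (Real.exp N) R) := by
  unfold WW
  split_ifs
  · exact one_le_UU hp hN (one_le_mm (hT hN) R)
  · exact UU_mono hp hN (one_le_mm (hT hN) x) (mm_mono h)

lemma measurable_ww : Measurable (ww p N) := by
  unfold ww WW UU
  have hm : Measurable (mm (Real.exp N)) := continuous_mm.measurable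
  refine ENNReal.measurable_ofReal.comp (Measurable.ite ?_ measurable_const ?_)
  · exact measurableSet_le (by fun_prop) measurable_const
  · exact ((hm.pow_const _).const_mul _).div ((Real.measurable_log.comp hm).const_add _)

lemma log_mm_le (hN : 1 ≤ N) (x : ℝ) : Real.log (mm (Real.exp N) x) ≤ N := by
  have := Real.log_le_log (mm_pos (hT hN) x) (mm_le (T := Real.exp N) x)
  rwa [Real.log_exp] at this

/-- The dual weight outside the core. -/
lemma sigma_out (hp : 2 ≤ p) (hN : 1 ≤ N) {x : ℝ} (hx : ¬ |x| ≤ 1) :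
    ww p N x ^ (-1 / (p - 1)) ≤ ENNReal.ofReal (1 / ((1 + N) * mm (Real.exp N) x)) := by
  unfold ww
  have hW := one_le_WW hp hN x
  rw [ENNReal.ofReal_rpow_of_pos (by linarith)]
  refine ENNReal.ofReal_le_ofReal ?_
  set m := mm (Real.exp N) x with hm
  have hm1 : 1 ≤ m := one_le_mm (hT hN) x
  have hl0 : 0 ≤ Real.log m := Real.log_nonneg hm1
  have hlN : Real.log m ≤ N := log_mm_le hN x
  have hq : 0 < p - 1 := by linarith
  have hpos : 0 < (1 + N) * m := by positivity
  have h1 : ((1 + N) * m) ^ (p - 1) ≤ WW p N x := by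
    unfold WW
    rw [if_neg hx, ← hm]
    unfold UU
    rw [Real.mul_rpow (by linarith) (by linarith), le_div_iff₀ (by linarith)]
    have h2 : (1 + N) ^ p = (1 + N) ^ (p - 1) * (1 + N) := by
      conv_lhs => rw [show p = (p - 1) + 1 by ring]
      rw [Real.rpow_add (by linarith), Real.rpow_one]
    rw [h2]
    have h3 : 0 ≤ (1 + N) ^ (p - 1) * m ^ (p - 1) := by positivity
    nlinarith
  calc WW p N x ^ (-1 / (p - 1)) ≤ (((1 + N) * m) ^ (p - 1)) ^ (-1 / (p - 1)) :=
        Real.rpow_le_rpow_of_nonpos (by positivity) h1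
          (div_nonpos_of_nonpos_of_nonneg (by norm_num) hq.le)
    _ = 1 / ((1 + N) * m) := by
        rw [← Real.rpow_mul hpos.le, show (p - 1) * (-1 / (p - 1)) = -1 by field_simp,
          Real.rpow_neg_one, one_div]

lemma sigma_in {x : ℝ} (hx : |x| ≤ 1) (e : ℝ) : ww p N x ^ e = 1 := by
  unfold ww WW
  rw [if_pos hx]
  simp

lemma sigma_le (hp : 2 ≤ p) (hN : 1 ≤ N) (x : ℝ) :
    ww p N x ^ (-1 / (p - 1)) ≤ ENNReal.ofReal (2 / mm (Real.exp N) x) := by
  have hm := mm_pos (hT hN) x
  by_cases hx : |x| ≤ 1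
  · rw [sigma_in hx, ← ENNReal.ofReal_one]
    refine ENNReal.ofReal_le_ofReal ?_
    rw [le_div_iff₀ hm]
    have : mm (Real.exp N) x ≤ 1 + |x| := min_le_left _ _
    linarith
  · refine (sigma_out hp hN hx).trans (ENNReal.ofReal_le_ofReal ?_)
    rw [div_le_div_iff₀ (by positivity) hm]
    nlinarith

lemma lintegral_sigma (hp : 2 ≤ p) (hN : 1 ≤ N) {R : ℝ} (hR : 0 ≤ R) :
    ∫⁻ x in Icc (-R) R, ww p N x ^ (-1 / (p - 1)) ≤
      ENNReal.ofReal (4 + 2 * (R / Real.exp N)) := by
  have hT0 := Real.exp_pos N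
  have hl0 : 0 ≤ Real.log (mm (Real.exp N) R) := Real.log_nonneg (one_le_mm (hT hN) R)
  have hlN := log_mm_le hN R
  have hmeas : Measurable fun x => ENNReal.ofReal (1 / mm (Real.exp N) x) :=
    ENNReal.measurable_ofReal.comp (measurable_const.div continuous_mm.measurable)
  calc ∫⁻ x in Icc (-R) R, ww p N x ^ (-1 / (p - 1))
      ≤ ∫⁻ x in Icc (-R) R, ((Icc (-1 : ℝ) 1).indicator (fun _ => (1 : ℝ≥0∞)) x +
          ENNReal.ofReal (1 / (1 + N)) * ENNReal.ofReal (1 / mm (Real.exp N) x)) := by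
        refine lintegral_mono fun x => ?_
        by_cases hx : |x| ≤ 1
        · rw [sigma_in hx, indicator_of_mem (show x ∈ Icc (-1 : ℝ) 1 from abs_le.1 hx)]
          exact le_self_add
        · refine (sigma_out hp hN hx).trans (le_trans (le_of_eq ?_) le_add_self)
          rw [← ENNReal.ofReal_mul (by positivity), one_div_mul_one_div]
    _ = (∫⁻ x in Icc (-R) R, (Icc (-1 : ℝ) 1).indicator (fun _ => (1 : ℝ≥0∞)) x) +
          ENNReal.ofReal (1 / (1 + N)) *
            ∫⁻ x in Icc (-R) R, ENNReal.ofReal (1 / mm (Real.exp N) x) := by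
        rw [lintegral_add_right _ (hmeas.const_mul _), lintegral_const_mul _ hmeas]
    _ ≤ ENNReal.ofReal 2 + ENNReal.ofReal (1 / (1 + N)) *
          ENNReal.ofReal (2 * (Real.log (mm (Real.exp N) R) + R / Real.exp N)) := by
        gcongr
        · refine (setLIntegral_le_lintegral _ _).trans (le_of_eq ?_)
          rw [lintegral_indicator measurableSet_Icc, setLIntegral_const, Real.volume_Icc, one_mul]
          norm_num
        · exact lintegral_inv_mm (hT hN) hR
    _ ≤ ENNReal.ofReal (4 + 2 * (R / Real.exp N)) := by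
        rw [← ENNReal.ofReal_mul (by positivity), ← ENNReal.ofReal_add (by norm_num)
          (by positivity)]
        refine ENNReal.ofReal_le_ofReal ?_
        have h1 : 0 ≤ R / Real.exp N := by positivity
        have h2 : 1 / (1 + N) * (2 * (Real.log (mm (Real.exp N) R) + R / Real.exp N)) ≤
            2 + 2 * (R / Real.exp N) := by
          rw [one_div_mul_eq_div, div_le_iff₀ (by linarith)]
          nlinarith
        linarith

lemma avg_sigma (hp : 2 ≤ p) (hN : 1 ≤ N) {a b : ℝ} (hab : a < b) :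
    avg (fun x => ww p N x ^ (-1 / (p - 1))) a b ≤
      ENNReal.ofReal (24 / mm (Real.exp N) (max |a| |b|)) := by
  have h := avg_le_key (hT hN) (c := 2) (A := 4) (B := 2) (by norm_num) (by norm_num)
    (by norm_num) (sigma_le hp hN) hab rfl
    (lintegral_sigma hp hN ((abs_nonneg a).trans (le_max_left _ _)))
  convert h using 3
  norm_num

lemma abs_le_max {a b x : ℝ} (hx : x ∈ Icc a b) : |x| ≤ |max (|a|) (|b|)| := by
  rw [abs_of_nonneg ((abs_nonneg a).trans (le_max_left _ _))]
  exact abs_le_max_abs_abs hx.1 hx.2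

lemma maxFn_sigma (hp : 2 ≤ p) (hN : 1 ≤ N) (s : Set ℝ) (x : ℝ) :
    maxFn (s.indicator (fun x => ww p N x ^ (-1 / (p - 1)))) x ≤
      ENNReal.ofReal (24 / mm (Real.exp N) x) := by
  unfold maxFn
  refine iSup_le fun a => iSup_le fun b => iSup_le fun hab => iSup_le fun hx => ?_
  refine (avg_mono (fun y => indicator_le_self _ _ y) a b).trans ((avg_sigma hp hN hab).trans
    (ENNReal.ofReal_le_ofReal ?_))
  exact div_le_div_of_nonneg_left (by norm_num) (mm_pos (hT hN) x) (mm_mono (abs_le_max hx))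

lemma avg_maxFn (hp : 2 ≤ p) (hN : 1 ≤ N) (s : Set ℝ) {a b : ℝ} (hab : a < b) :
    avg (maxFn (s.indicator (fun x => ww p N x ^ (-1 / (p - 1))))) a b ≤
      ENNReal.ofReal (192 * (1 + Real.log (mm (Real.exp N) (max |a| |b|))) /
        mm (Real.exp N) (max |a| |b|)) := by
  set R := max |a| |b| with hR
  have hR0 : 0 ≤ R := (abs_nonneg a).trans (le_max_left _ _)
  have hl0 : 0 ≤ Real.log (mm (Real.exp N) R) := Real.log_nonneg (one_le_mm (hT hN) R)
  have hmeas : Measurable fun x => ENNReal.ofReal (1 / mm (Real.exp N) x) :=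
    ENNReal.measurable_ofReal.comp (measurable_const.div continuous_mm.measurable)
  have hint : ∫⁻ x in Icc (-R) R, maxFn (s.indicator (fun x => ww p N x ^ (-1 / (p - 1)))) x ≤
      ENNReal.ofReal (48 * Real.log (mm (Real.exp N) R) + 48 * (R / Real.exp N)) := by
    calc _ ≤ ∫⁻ x in Icc (-R) R, ENNReal.ofReal 24 * ENNReal.ofReal (1 / mm (Real.exp N) x) := by
          refine lintegral_mono fun x => (maxFn_sigma hp hN s x).trans (le_of_eq ?_)
          rw [← ENNReal.ofReal_mul (by norm_num), mul_one_div]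
      _ ≤ ENNReal.ofReal 24 *
            ENNReal.ofReal (2 * (Real.log (mm (Real.exp N) R) + R / Real.exp N)) := by
          rw [lintegral_const_mul _ hmeas]
          gcongr
          exact lintegral_inv_mm (hT hN) hR0
      _ = _ := by
          rw [← ENNReal.ofReal_mul (by norm_num)]
          congr 1
          ring
  have h := avg_le_key (hT hN) (c := 24) (by norm_num) (by positivity) (by norm_num)
    (maxFn_sigma hp hN s) hab hR hint
  refine h.trans (ENNReal.ofReal_le_ofReal ?_)
  exact div_le_div_of_nonneg_right (by linarith) (mm_pos (hT hN) R).le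

lemma avg_ww (hp : 2 ≤ p) (hN : 1 ≤ N) {a b : ℝ} (hab : a < b) :
    avg (ww p N) a b ≤ ENNReal.ofReal (UU p N (mm (Real.exp N) (max |a| |b|))) :=
  avg_le_of_le hab fun _ hy => ENNReal.ofReal_le_ofReal (WW_le hp hN (abs_le_max hy))

lemma AqConst_lt_top (hp : 2 ≤ p) (hN : 1 ≤ N) : AqConst p (ww p N) < ⊤ := by
  refine lt_of_le_of_lt (b := ENNReal.ofReal (UU p N (Real.exp N)) * ENNReal.ofReal 24 ^ (p - 1))
    ?_ (ENNReal.mul_lt_top ENNReal.ofReal_lt_top
      (ENNReal.rpow_lt_top_of_nonneg (by linarith) ENNReal.ofReal_ne_top))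
  unfold AqConst Aq
  refine iSup_le fun a => iSup_le fun b => iSup_le fun hab => ?_
  have hm := one_le_mm (hT hN) (max |a| |b|)
  gcongr
  · exact (avg_ww hp hN hab).trans (ENNReal.ofReal_le_ofReal (UU_mono hp hN hm (mm_le _)))
  · linarith
  · refine (avg_sigma hp hN hab).trans (ENNReal.ofReal_le_ofReal ?_)
    rw [div_le_iff₀ (by linarith)]
    linarith

lemma mixed_le (hp : 2 ≤ p) (hN : 1 ≤ N) :
    mixedConst (p / (p - 1)) (1 / (p / (p - 1))) (1 / p)
        (fun x => ww p N x ^ (1 - p / (p - 1))) ≤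
      ENNReal.ofReal (24 ^ (p - 2) * 192 * (1 + N) ^ p) ^ (1 / p) := by
  have hq : 0 < p - 1 := by linarith
  have hp0 : 0 < p := by linarith
  have he : 1 - p / (p - 1) = -1 / (p - 1) := by field_simp; ring
  rw [he]
  unfold mixedConst
  refine iSup_le fun a => iSup_le fun b => iSup_le fun hab => ?_
  set σ : ℝ → ℝ≥0∞ := fun x => ww p N x ^ (-1 / (p - 1)) with hσ
  have hdual : (fun x => σ x ^ (-1 / (p / (p - 1) - 1))) = ww p N := by
    ext x
    rw [hσ]
    simp only
    rw [← ENNReal.rpow_mul, show -1 / (p - 1) * (-1 / (p / (p - 1) - 1)) = 1 by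
      field_simp; ring, ENNReal.rpow_one]
  have hl : ENNReal.ofReal (b - a) ≠ 0 := by
    rw [Ne, ENNReal.ofReal_eq_zero, not_le]; linarith
  have hAinf : Ainf σ a b = avg (maxFn ((Icc a b).indicator σ)) a b / avg σ a b := by
    unfold Ainf avg
    rw [div_eq_mul_inv, div_eq_mul_inv, div_eq_mul_inv, div_eq_mul_inv,
      ENNReal.mul_inv (Or.inr (ENNReal.inv_ne_top.2 hl))
        (Or.inr (ENNReal.inv_ne_zero.2 ENNReal.ofReal_ne_top)), inv_inv, mul_assoc,
      mul_comm (ENNReal.ofReal (b - a))⁻¹, mul_assoc,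
      ENNReal.mul_inv_cancel hl ENNReal.ofReal_ne_top, mul_one]
  unfold Aq
  rw [hdual, hAinf]
  have hs := avg_sigma hp hN hab
  have hu := avg_ww hp hN hab
  have hμ := avg_maxFn hp hN (Icc a b) hab
  rw [← hσ] at hs hμ
  set s := avg σ a b
  set u := avg (ww p N) a b
  set μ := avg (maxFn ((Icc a b).indicator σ)) a b
  set m := mm (Real.exp N) (max |a| |b|) with hm
  have hm1 : 1 ≤ m := one_le_mm (hT hN) _
  have hl0 : 0 ≤ Real.log m := Real.log_nonneg hm1
  by_cases hs0 : s = 0
  · rw [hs0, zero_mul, ENNReal.zero_rpow_of_pos (by positivity), zero_mul]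
    exact zero_le
  have hstop : s ≠ ⊤ := ne_top_of_le_ne_top ENNReal.ofReal_ne_top hs
  have h1 : (s * u ^ (p / (p - 1) - 1)) ^ (1 / (p / (p - 1))) = (s ^ (p - 1) * u) ^ (1 / p) := by
    rw [ENNReal.mul_rpow_of_nonneg _ _ (by positivity),
      ENNReal.mul_rpow_of_nonneg _ _ (by positivity), ← ENNReal.rpow_mul, ← ENNReal.rpow_mul]
    congr 2
    · field_simp
    · field_simp; ring
  rw [h1, ← ENNReal.mul_rpow_of_nonneg _ _ (by positivity)]
  refine ENNReal.rpow_le_rpow ?_ (by positivity)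
  have h2 : s ^ (p - 1) * u * (μ / s) = s ^ (p - 2) * u * μ := by
    have : s ^ (p - 1) = s ^ (p - 2) * s := by
      rw [show p - 1 = (p - 2) + 1 by ring, ENNReal.rpow_add _ _ hs0 hstop, ENNReal.rpow_one]
    rw [this, div_eq_mul_inv]
    calc s ^ (p - 2) * s * u * (μ * s⁻¹) = s ^ (p - 2) * u * μ * (s * s⁻¹) := by ring
      _ = _ := by rw [ENNReal.mul_inv_cancel hs0 hstop, mul_one]
  rw [h2]
  calc s ^ (p - 2) * u * μ ≤ ENNReal.ofReal (24 / m) ^ (p - 2) * ENNReal.ofReal (UU p N m) *
        ENNReal.ofReal (192 * (1 + Real.log m) / m) := by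
        gcongr
    _ = ENNReal.ofReal (24 ^ (p - 2) * 192 * (1 + N) ^ p) := by
        have hU := one_le_UU hp hN hm1
        rw [ENNReal.ofReal_rpow_of_pos (by positivity), ← ENNReal.ofReal_mul (by positivity),
          ← ENNReal.ofReal_mul (by positivity), UU_eq hN hm1,
          Real.div_rpow (by norm_num) (by linarith)]
        congr 1
        have : m ^ (p - 2) ≠ 0 := by positivity
        field_simp

lemma lintegral_loglog {S : ℝ} (hS : 1 ≤ S) :
    ∫⁻ x in Ioc 1 S, ENNReal.ofReal (1 / ((1 + x) * (1 + Real.log (1 + x)))) =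
      ENNReal.ofReal (Real.log (1 + Real.log (1 + S)) - Real.log (1 + Real.log (1 + 1))) := by
  have hpos : ∀ x ∈ Icc 1 S, 0 < 1 + Real.log (1 + x) := by
    intro x hx
    have := Real.log_nonneg (show 1 ≤ 1 + x by linarith [hx.1])
    linarith
  have hcont : ContinuousOn (fun x : ℝ => 1 / ((1 + x) * (1 + Real.log (1 + x)))) (Icc 1 S) := by
    refine continuousOn_const.div (ContinuousOn.mul (by fun_prop) (continuousOn_const.add
      (ContinuousOn.log (by fun_prop) fun x hx => by linarith [hx.1]))) (fun x hx => ?_)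
    exact mul_ne_zero (by linarith [hx.1]) (hpos x hx).ne'
  rw [← ofReal_integral_eq_lintegral_ofReal (hcont.integrableOn_Icc.mono_set Ioc_subset_Icc_self)]
  · congr 1
    rw [← intervalIntegral.integral_of_le hS]
    exact intervalIntegral.integral_eq_sub_of_hasDerivAt
      (f := fun x : ℝ => Real.log (1 + Real.log (1 + x)))
      (f' := fun x : ℝ => 1 / ((1 + x) * (1 + Real.log (1 + x)))) (a := 1) (b := S)
      (fun x hx => by
        rw [uIcc_of_le hS] at hx
        have h1 : (1 + x) ≠ 0 := by have := hx.1; linarith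
        have h2 := ((((hasDerivAt_id x).const_add 1).log h1).const_add 1).log (hpos x hx).ne'
        have h3 : 1 / ((1 + x) * (1 + Real.log (1 + x))) =
            1 / (1 + id x) / (1 + Real.log (1 + id x)) := by
          simp only [id_eq]
          rw [div_div]
        rw [h3]
        exact h2) (by
        rw [intervalIntegrable_iff_integrableOn_Icc_of_le hS]
        exact hcont.integrableOn_Icc)
  · refine (ae_restrict_iff' measurableSet_Ioc).2 (Filter.Eventually.of_forall fun x hx => ?_)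
    have h1 := hpos x (Ioc_subset_Icc_self hx)
    have h2 := hx.1
    positivity

lemma opNorm_ge (hp : 2 ≤ p) (hN : 1 ≤ N) :
    ENNReal.ofReal ((1 + N) ^ p * (Real.log (1 + N) - 1)) ^ (1 / p) ≤ maxOpNorm p (ww p N) := by
  have hp0 : 0 < p := by linarith
  let f : ℝ → ℝ := (Icc (0 : ℝ) 1).indicator (fun _ => 1)
  have hf : Measurable f := measurable_const.indicator measurableSet_Icc
  have hfe : (fun x => ‖f x‖ₑ) = (Icc (0 : ℝ) 1).indicator (fun _ => (1 : ℝ≥0∞)) := by
    ext x
    by_cases hx : x ∈ Icc (0 : ℝ) 1 <;> simp [f, hx]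
  have hnorm : wNorm p (ww p N) (fun x => ‖f x‖ₑ) = 1 := by
    unfold wNorm
    rw [hfe]
    have : (fun x => (Icc (0 : ℝ) 1).indicator (fun _ => (1 : ℝ≥0∞)) x ^ p * ww p N x) =
        (Icc (0 : ℝ) 1).indicator (fun _ => (1 : ℝ≥0∞)) := by
      ext x
      by_cases hx : x ∈ Icc (0 : ℝ) 1
      · have h1 := sigma_in (p := p) (N := N) (x := x) (abs_le.2 ⟨by linarith [hx.1], hx.2⟩) 1
        rw [ENNReal.rpow_one] at h1
        simp [hx, h1]
      · simp [hx, hp0]
    rw [this, lintegral_indicator measurableSet_Icc, setLIntegral_const, Real.volume_Icc]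
    simp
  refine le_trans ?_ (le_iSup₂_of_le (f := fun (f : ℝ → ℝ) (_ : Measurable f) =>
    ⨆ (_ : wNorm p (ww p N) (fun x => ‖f x‖ₑ) = 1), wNorm p (ww p N) (maxFn (fun x => ‖f x‖ₑ)))
    f hf (le_iSup (fun _ => wNorm p (ww p N) (maxFn (fun x => ‖f x‖ₑ))) hnorm))
  unfold wNorm
  refine ENNReal.rpow_le_rpow ?_ (by positivity)
  rw [hfe]
  have hT2 : 1 ≤ Real.exp N - 1 := by
    have := Real.add_one_le_exp N
    linarith
  have hK : 0 ≤ (1 + N) ^ p := Real.rpow_nonneg (by linarith) _
  have hmeas : Measurable fun x : ℝ =>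
      ENNReal.ofReal (1 / ((1 + x) * (1 + Real.log (1 + x)))) := by
    refine ENNReal.measurable_ofReal.comp (measurable_const.div ?_)
    exact (measurable_id.const_add 1).mul
      ((Real.measurable_log.comp (measurable_id.const_add 1)).const_add 1)
  calc ENNReal.ofReal ((1 + N) ^ p * (Real.log (1 + N) - 1))
      ≤ ENNReal.ofReal ((1 + N) ^ p) * ENNReal.ofReal (Real.log (1 + Real.log
          (1 + (Real.exp N - 1))) - Real.log (1 + Real.log (1 + 1))) := by
        rw [← ENNReal.ofReal_mul hK]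
        refine ENNReal.ofReal_le_ofReal (mul_le_mul_of_nonneg_left ?_ hK)
        rw [add_sub_cancel, Real.log_exp]
        have h1 : Real.log (1 + 1) ≤ 1 := by
          have := Real.log_le_sub_one_of_pos (show (0 : ℝ) < 1 + 1 by norm_num)
          linarith
        have h0 : 0 ≤ Real.log (1 + 1) := Real.log_nonneg (by norm_num)
        have h2 := Real.log_le_sub_one_of_pos (show (0 : ℝ) < 1 + Real.log (1 + 1) by linarith)
        linarith
    _ = ∫⁻ x in Ioc 1 (Real.exp N - 1), ENNReal.ofReal ((1 + N) ^ p) *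
          ENNReal.ofReal (1 / ((1 + x) * (1 + Real.log (1 + x)))) := by
        rw [lintegral_const_mul _ hmeas, lintegral_loglog hT2]
    _ ≤ ∫⁻ x in Ioc 1 (Real.exp N - 1),
          maxFn ((Icc (0 : ℝ) 1).indicator (fun _ => (1 : ℝ≥0∞))) x ^ p * ww p N x := by
        refine setLIntegral_mono' measurableSet_Ioc fun x hx => ?_
        have hx1 := hx.1
        have hM : ENNReal.ofReal (1 / (1 + x)) ≤
            maxFn ((Icc (0 : ℝ) 1).indicator (fun _ => (1 : ℝ≥0∞))) x := by
          unfold maxFn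
          refine le_iSup_of_le 0 (le_iSup_of_le x (le_iSup_of_le (by linarith)
            (le_iSup_of_le ⟨by linarith, le_rfl⟩ ?_)))
          unfold avg
          rw [lintegral_indicator measurableSet_Icc, setLIntegral_const, one_mul,
            Measure.restrict_apply measurableSet_Icc,
            inter_eq_left.2 (Icc_subset_Icc le_rfl hx1.le), Real.volume_Icc, sub_zero, sub_zero,
            ← ENNReal.ofReal_div_of_pos (by linarith)]
          exact ENNReal.ofReal_le_ofReal
            (one_div_le_one_div_of_le (by linarith) (by linarith))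
        have hw : ww p N x = ENNReal.ofReal (UU p N (1 + x)) := by
          unfold ww WW mm
          rw [abs_of_nonneg (by linarith), if_neg (by linarith),
            min_eq_left (by linarith [hx.2])]
        rw [hw]
        have hl0 : 0 ≤ Real.log (1 + x) := Real.log_nonneg (by linarith)
        calc _ = ENNReal.ofReal (1 / (1 + x)) ^ p * ENNReal.ofReal (UU p N (1 + x)) := by
              rw [ENNReal.ofReal_rpow_of_pos (by positivity), ← ENNReal.ofReal_mul hK,
                ← ENNReal.ofReal_mul (by positivity)]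
              congr 1
              unfold UU
              have h3 : (1 + x) ^ p = (1 + x) ^ (p - 1) * (1 + x) := by
                conv_lhs => rw [show p = (p - 1) + 1 by ring]
                rw [Real.rpow_add (by linarith), Real.rpow_one]
              rw [Real.div_rpow (by norm_num) (by linarith), Real.one_rpow, h3]
              have : (1 + x) ^ (p - 1) ≠ 0 := by positivity
              field_simp
          _ ≤ _ := by gcongr
    _ ≤ _ := setLIntegral_le_lintegral _ _

theorem main (hp : 2 ≤ p) (C : NNReal) :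
    ∃ w : ℝ → ℝ≥0∞, Measurable w ∧ (∀ x, 0 < w x ∧ w x < ⊤) ∧
      (∀ a b : ℝ, ∫⁻ x in Icc a b, w x < ⊤) ∧ AqConst p w < ⊤ ∧
      C * mixedConst (p / (p - 1)) (1 / (p / (p - 1))) (1 / p) (fun x => w x ^ (1 - p / (p - 1)))
        < maxOpNorm p w := by
  have hp0 : 0 < p := by linarith
  set D : ℝ := (C : ℝ) ^ p * (24 ^ (p - 2) * 192) with hD
  have hD0 : 0 ≤ D := by positivity
  set N : ℝ := Real.exp (D + 2) with hNdef
  have hN : 1 ≤ N := Real.one_le_exp (by linarith)
  refine ⟨ww p N, measurable_ww, fun x => ⟨?_, ENNReal.ofReal_lt_top⟩, fun a b => ?_,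
    AqConst_lt_top hp hN, ?_⟩
  · exact ENNReal.ofReal_pos.2 (by linarith [one_le_WW hp hN x])
  · calc ∫⁻ x in Icc a b, ww p N x
        ≤ ∫⁻ _ in Icc a b, ENNReal.ofReal (UU p N (mm (Real.exp N) (max |a| |b|))) :=
          setLIntegral_mono' measurableSet_Icc fun y hy =>
            ENNReal.ofReal_le_ofReal (WW_le hp hN (abs_le_max hy))
      _ < ⊤ := by
          rw [setLIntegral_const, Real.volume_Icc]
          exact ENNReal.mul_lt_top ENNReal.ofReal_lt_top ENNReal.ofReal_lt_top
  · refine lt_of_le_of_lt (mul_le_mul_right (mixed_le hp hN) _)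
      (lt_of_lt_of_le ?_ (opNorm_ge hp hN))
    have hK : 0 < (1 + N) ^ p := Real.rpow_pos_of_pos (by linarith) _
    have hC : (C : ℝ≥0∞) = ENNReal.ofReal ((C : ℝ) ^ p) ^ (1 / p) := by
      rw [← ENNReal.ofReal_rpow_of_nonneg (x := (C : ℝ)) (NNReal.coe_nonneg C) hp0.le, ← ENNReal.rpow_mul,
        mul_one_div_cancel hp0.ne', ENNReal.rpow_one, ENNReal.ofReal_coe_nnreal]
    rw [hC, ← ENNReal.mul_rpow_of_nonneg _ _ (by positivity), ← ENNReal.ofReal_mul (by positivity)]
    refine ENNReal.rpow_lt_rpow ?_ (by positivity)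
    have hlog : D + 2 ≤ Real.log (1 + N) := by
      have := Real.log_le_log (Real.exp_pos (D + 2)) (show N ≤ 1 + N by linarith)
      rwa [Real.log_exp] at this
    rw [ENNReal.ofReal_lt_ofReal_iff (mul_pos hK (by linarith))]
    have h1 : (C : ℝ) ^ p * (24 ^ (p - 2) * 192 * (1 + N) ^ p) = (1 + N) ^ p * D := by
      rw [hD]; ring
    rw [h1]
    exact mul_lt_mul_of_pos_left (by linarith) hK

end Pool.Agent.H572Z.Mx
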